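import Mathlib

set_option autoImplicit false

namespace Pool.Agent.H518Z.Mag

open Finset Filter Topology

/-- scale of the n-th copy -/
noncomputable def t (n : ℕ) : ℝ := 1 / ((n : ℝ) + 1)

lemma t_pos (n : ℕ) : 0 < t n := by unfold t; positivity

/-- distances among the five non-base points of the six point space -/
def D (i j : Fin 5) : ℝ := if i = j then 0 else if 2 ≤ i.val ∧ 2 ≤ j.val then 2 else 1

lemma D_nonneg (i j : Fin 5) : 0 ≤ D i j := by unfold D; split_ifs <;> norm_num
lemma D_le (i j : Fin 5) : D i j ≤ 2 := by unfold D; split_ifs <;> norm_num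
lemma D_self (i : Fin 5) : D i i = 0 := by simp [D]
lemma D_comm (i j : Fin 5) : D i j = D j i := by
  unfold D; simp only [eq_comm (a := i), and_comm]
lemma D_one {i j : Fin 5} (h : i ≠ j) : 1 ≤ D i j := by
  unfold D; rw [if_neg h]; split_ifs <;> norm_num
lemma D_tri (i j k : Fin 5) : D i k ≤ D i j + D j k := by
  by_cases h1 : i = j
  · subst h1; simp [D_self]
  by_cases h2 : j = k
  · subst h2; simp [D_self]
  have := D_one h1; have := D_one h2; have := D_le i k; linarith

/-- the wedge of the scaled copies -/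
def W : Type := Option (ℕ × Fin 5)

noncomputable def d : W → W → ℝ
  | none, none => 0
  | none, some p => t p.1
  | some p, none => t p.1
  | some p, some q => if p.1 = q.1 then t p.1 * D p.2 q.2 else t p.1 + t q.1

lemma d_ss_le (p q : ℕ × Fin 5) : d (some p) (some q) ≤ t p.1 + t q.1 := by
  simp only [d]
  split_ifs with h
  · rw [← h]; have := D_le p.2 q.2; have := t_pos p.1; nlinarith
  · exact le_rfl

lemma d_ss_ge (p q : ℕ × Fin 5) : t p.1 ≤ d (some p) (some q) + t q.1 := by
  simp only [d]
  split_ifs with h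
  · rw [← h]; have := D_nonneg p.2 q.2; have := t_pos p.1; nlinarith
  · have := t_pos q.1; linarith

lemma d_comm (x y : W) : d x y = d y x := by
  rcases x with _ | p <;> rcases y with _ | q <;> simp only [d]
  by_cases h : p.1 = q.1
  · rw [if_pos h, if_pos h.symm, h, D_comm]
  · rw [if_neg h, if_neg (Ne.symm h), add_comm]

noncomputable instance : MetricSpace W where
  dist := d
  dist_self x := by
    rcases x with _ | p <;> simp [d, D_self]
  dist_comm := d_comm
  dist_triangle x y z := by
    rcases x with _ | p <;> rcases y with _ | q <;> rcases z with _ | r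
    · simp [d]
    · simp [d]
    · simp only [d]; have := t_pos q.1; linarith
    · have := d_ss_ge r q; have := d_comm (some r) (some q)
      show t r.1 ≤ t q.1 + d (some q) (some r); linarith
    · simp [d]
    · exact d_ss_le p r
    · exact d_ss_ge p q
    · show d (some p) (some r) ≤ d (some p) (some q) + d (some q) (some r)
      by_cases h1 : p.1 = q.1
      · by_cases h2 : q.1 = r.1
        · simp only [d, if_pos h1, if_pos h2, if_pos (h1.trans h2)]
          rw [← h1]; have := D_tri p.2 q.2 r.2; have := t_pos p.1; nlinarith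
        · have e : d (some q) (some r) = t q.1 + t r.1 := by simp only [d, if_neg h2]
          have e' : d (some p) (some r) = t p.1 + t r.1 := by
            simp only [d, if_neg (h1 ▸ h2 : ¬ p.1 = r.1)]
          have := d_ss_ge p q; linarith
      · have e : d (some p) (some q) = t p.1 + t q.1 := by simp only [d, if_neg h1]
        have h3 := d_ss_ge r q; have h4 := d_comm (some r) (some q)
        have := d_ss_le p r; linarith
  eq_of_dist_eq_zero := by
    intro x y h
    rcases x with _ | p <;> rcases y with _ | q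
    · rfl
    · exact absurd h (t_pos _).ne'
    · exact absurd h (t_pos _).ne'
    · change d (some p) (some q) = 0 at h
      simp only [d] at h
      split_ifs at h with h1
      · by_contra hne
        have : p.2 ≠ q.2 := fun h2 => hne (by rw [Prod.ext h1 h2])
        have := D_one this; have := t_pos p.1; nlinarith
      · have := t_pos p.1; have := t_pos q.1; linarith

lemma dist_eq (x y : W) : dist x y = d x y := rfl

noncomputable def u : W → ℝ
  | none => 1
  | some p => Real.exp (-t p.1)

noncomputable def R : W → W → ℝ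
  | some p, some q =>
      if p.1 = q.1 then Real.exp (-(t p.1 * D p.2 q.2)) - Real.exp (-t p.1) ^ 2 else 0
  | _, _ => 0

lemma K_eq (x y : W) : Real.exp (-dist x y) = u x * u y + R x y := by
  rw [dist_eq]
  rcases x with _ | p <;> rcases y with _ | q <;> simp only [d, u, R]
  · simp
  · simp
  · simp
  · split_ifs with h
    · rw [← h]; ring
    · rw [← Real.exp_add]; ring_nf

lemma block (n : ℕ) (w : Fin 5 → ℝ) :
    (1 - Real.exp (-t n)) ^ 2 * ∑ i, w i ^ 2 ≤
      ∑ i, ∑ j, w i * w j * (Real.exp (-(t n * D i j)) - Real.exp (-t n) ^ 2) := by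
  set q := Real.exp (-t n) with hq
  have h0 : 0 < q := Real.exp_pos _
  have h1 : q < 1 := by rw [hq, Real.exp_lt_one_iff]; linarith [t_pos n]
  have e1 : Real.exp (-(t n * 1)) = q := by rw [mul_one]
  have e2 : Real.exp (-(t n * 2)) = q ^ 2 := by
    rw [hq, sq, ← Real.exp_add]; ring_nf
  have e0 : Real.exp (-(t n * 0)) = 1 := by simp
  simp only [Fin.sum_univ_five, D]
  norm_num [Fin.ext_iff]
  rw [← hq]
  have e2' : Real.exp (-(t n * 2)) = q ^ 2 := e2
  rw [e2']
  have key : 0 ≤ (1 - q) * q * ((3 / 2) * (w 0 + w 1 + (2 / 3) * (w 2 + w 3 + w 4)) ^ 2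
      + (1 / 2) * (w 0 - w 1) ^ 2
      + (2 / 3) * ((w 2 - w 3) ^ 2 + (w 2 - w 4) ^ 2 + (w 3 - w 4) ^ 2)) := by
    have : 0 < 1 - q := by linarith
    positivity
  nlinarith [key]

instance : DecidableEq W := inferInstanceAs (DecidableEq (Option (ℕ × Fin 5)))

/-- the point `(n, i)` of `W` -/
def pt (n : ℕ) (i : Fin 5) : W := some (n, i)
/-- the base point -/
def base : W := none

lemma pt_inj : Function.Injective (fun p : ℕ × Fin 5 => pt p.1 p.2) := by
  intro p q h
  exact Option.some.inj h

noncomputable def G (N : ℕ) : Finset W :=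
  insert base ((range N ×ˢ (univ : Finset (Fin 5))).image (fun p => pt p.1 p.2))

lemma sum_G (N : ℕ) (f : W → ℝ) :
    ∑ x ∈ G N, f x = f base + ∑ n ∈ range N, ∑ i, f (pt n i) := by
  unfold G
  rw [sum_insert, sum_image (fun p _ q _ h => pt_inj h), sum_product]
  simp only [mem_image, not_exists, not_and]
  intro p _ h
  exact absurd h (by simp [pt, base])

lemma exists_G (F : Finset W) : ∃ N, F ⊆ G N := by
  refine ⟨(F.sup fun x : W => match x with | none => 0 | some p => p.1) + 1, fun x hx => ?_⟩
  unfold G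
  rcases x with _ | p
  · exact mem_insert_self _ _
  · refine mem_insert_of_mem (mem_image.2 ⟨p, ?_, rfl⟩)
    simp only [mem_product, mem_range, mem_univ, and_true]
    exact Nat.lt_succ_of_le
      (le_sup (f := fun x : W => match x with | none => 0 | some p => p.1) hx)

lemma form_pos (N : ℕ) (v : W → ℝ) (x0 : W) (hx0 : x0 ∈ G N) (hv : v x0 ≠ 0) :
    0 < ∑ x ∈ G N, ∑ y ∈ G N, v x * v y * Real.exp (-dist x y) := by
  have e : ∑ x ∈ G N, ∑ y ∈ G N, v x * v y * Real.exp (-dist x y)
      = (∑ x ∈ G N, v x * u x) ^ 2 + ∑ x ∈ G N, ∑ y ∈ G N, v x * v y * R x y := by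
    rw [sq, sum_mul_sum, ← sum_add_distrib]
    refine sum_congr rfl fun x _ => ?_
    rw [← sum_add_distrib]
    refine sum_congr rfl fun y _ => ?_
    rw [K_eq]; ring
  have e2 : ∑ x ∈ G N, ∑ y ∈ G N, v x * v y * R x y
      = ∑ n ∈ range N, ∑ i, ∑ j, v (pt n i) * v (pt n j) *
          (Real.exp (-(t n * D i j)) - Real.exp (-t n) ^ 2) := by
    rw [sum_G]
    have : ∑ y ∈ G N, v base * v y * R base y = 0 :=
      sum_eq_zero fun y _ => by simp [R, base]
    rw [this, zero_add]
    refine sum_congr rfl fun n hn => sum_congr rfl fun i _ => ?_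
    rw [sum_G]
    have : R (pt n i) base = 0 := by simp [R, base, pt]
    rw [this, mul_zero, zero_add, sum_eq_single n]
    · refine sum_congr rfl fun j _ => ?_
      simp [R, pt]
    · intro m _ hm
      refine sum_eq_zero fun j _ => ?_
      simp [R, pt, Ne.symm hm]
    · intro h; exact absurd hn h
  have hb : ∀ n, 0 ≤ (1 - Real.exp (-t n)) ^ 2 * ∑ i, v (pt n i) ^ 2 := fun n => by positivity
  rw [e, e2]
  by_cases h : ∃ n ∈ range N, ∃ i, v (pt n i) ≠ 0
  · obtain ⟨n, hn, i, hi⟩ := h
    have h1 : 0 < ∑ n ∈ range N, ∑ i, ∑ j, v (pt n i) * v (pt n j) *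
          (Real.exp (-(t n * D i j)) - Real.exp (-t n) ^ 2) := by
      refine sum_pos' (fun m _ => (hb m).trans (block m fun i => v (pt m i))) ⟨n, hn, ?_⟩
      refine lt_of_lt_of_le ?_ (block n fun i => v (pt n i))
      have h1 : Real.exp (-t n) < 1 := by rw [Real.exp_lt_one_iff]; linarith [t_pos n]
      have h2 : 0 < ∑ i, v (pt n i) ^ 2 :=
        sum_pos' (fun j _ => sq_nonneg _) ⟨i, mem_univ _, by positivity⟩
      have h3 : 0 < 1 - Real.exp (-t n) := by linarith
      positivity
    positivity
  · push Not at h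
    have hx : x0 = base := by
      unfold G at hx0
      rcases mem_insert.1 hx0 with h1 | h1
      · exact h1
      · obtain ⟨p, hp, rfl⟩ := mem_image.1 h1
        exact absurd (h p.1 (mem_product.1 hp).1 p.2) hv
    have h1 : ∑ x ∈ G N, v x * u x = v base := by
      rw [sum_G, sum_eq_zero, add_zero]
      · simp [u, base]
      · intro n hn
        exact sum_eq_zero fun i _ => by rw [h n hn i, zero_mul]
    have h2 : 0 ≤ ∑ n ∈ range N, ∑ i, ∑ j, v (pt n i) * v (pt n j) *
          (Real.exp (-(t n * D i j)) - Real.exp (-t n) ^ 2) :=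
      sum_nonneg fun m _ => (hb m).trans (block m fun i => v (pt m i))
    rw [h1]
    rw [hx] at hv
    positivity

theorem posDef (F : Finset W) :
    (Matrix.of fun x y : F => Real.exp (-dist (x : W) (y : W))).PosDef := by
  refine Matrix.PosDef.of_dotProduct_mulVec_pos ?_ fun x hx => ?_
  · ext a b
    simp [Matrix.conjTranspose_apply, dist_comm]
  · obtain ⟨N, hN⟩ := exists_G F
    let v : W → ℝ := fun w => if h : w ∈ F then x ⟨w, h⟩ else 0
    obtain ⟨a, ha⟩ : ∃ a, x a ≠ 0 := by
      by_contra h; push Not at h; exact hx (funext h)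
    have hv : ∀ a : F, v a = x a := fun a => by simp [v]
    have h := form_pos N v a (hN a.2) (by rw [hv]; exact ha)
    have e : ∑ x ∈ G N, ∑ y ∈ G N, v x * v y * Real.exp (-dist x y)
        = ∑ x ∈ F, ∑ y ∈ F, v x * v y * Real.exp (-dist x y) := by
      symm
      refine (sum_congr rfl fun a _ => sum_subset hN fun y _ hy => ?_).trans
        (sum_subset hN fun y _ hy => ?_)
      · simp [v, hy]
      · simp [v, hy]
    rw [e, ← sum_coe_sort F] at h
    simp only [dotProduct, Matrix.mulVec, Matrix.of_apply, star_trivial, mul_sum]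
    refine lt_of_lt_of_eq h (sum_congr rfl fun a _ => ?_)
    rw [← sum_coe_sort F]
    refine sum_congr rfl fun b _ => ?_
    rw [hv, hv]; ring

/-- the n-th copy as a finite set -/
noncomputable def X (n : ℕ) : Finset W := insert base (univ.image (pt n))

lemma sum_X (n : ℕ) (f : W → ℝ) : ∑ x ∈ X n, f x = f base + ∑ i, f (pt n i) := by
  unfold X
  rw [sum_insert, sum_image]
  · intro i _ j _ h
    exact (Prod.ext_iff.1 (Option.some.inj h)).2
  · simp only [mem_image, not_exists, not_and]
    intro p _ h
    exact absurd h (by simp [pt, base])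

noncomputable def wt (n : ℕ) : W → ℝ
  | none => 1 - 2 * Real.exp (-t n)
  | some p => if p.2.val < 2 then 1 - 2 * Real.exp (-t n) else 1

lemma ratio (n : ℕ) : 6 / 5 ≤ (∑ x ∈ X n, wt n x) ^ 2 /
    ∑ x ∈ X n, ∑ y ∈ X n, wt n x * wt n y * Real.exp (-dist x y) := by
  set q := Real.exp (-t n) with hq
  have h0 : 0 < q := Real.exp_pos _
  have h1 : q < 1 := by rw [hq, Real.exp_lt_one_iff]; linarith [t_pos n]
  have e2 : Real.exp (-(t n * 2)) = q ^ 2 := by
    rw [hq, sq, ← Real.exp_add]; ring_nf
  have a1 : ∑ x ∈ X n, wt n x = 6 * (1 - q) := by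
    rw [sum_X]
    simp only [Fin.sum_univ_five, wt, base, pt]
    norm_num
    ring
  have a2 : ∑ x ∈ X n, ∑ y ∈ X n, wt n x * wt n y * Real.exp (-dist x y)
      = 6 * (1 - q) ^ 2 * (4 * q + 1) := by
    simp only [sum_X, Fin.sum_univ_five, wt, base, pt, dist_eq, d, D]
    norm_num [Fin.ext_iff]
    rw [e2, ← hq]
    ring
  rw [a1, a2, le_div_iff₀]
  · have : 0 < (1 - q) ^ 2 := by have : 0 < 1 - q := by linarith
                                 positivity
    nlinarith
  · have : 0 < 1 - q := by linarith
    positivity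

noncomputable def KX (n : ℕ) : TopologicalSpace.NonemptyCompacts W :=
  ⟨⟨(X n : Set W), (X n).finite_toSet.isCompact⟩, ⟨base, by simp [X]⟩⟩

noncomputable def K0 : TopologicalSpace.NonemptyCompacts W :=
  ⟨⟨{base}, isCompact_singleton⟩, ⟨base, rfl⟩⟩

lemma tendsto_KX : Tendsto KX atTop (𝓝 K0) := by
  rw [tendsto_iff_dist_tendsto_zero]
  have ht : Tendsto t atTop (𝓝 0) := tendsto_one_div_add_atTop_nhds_zero_nat
  refine squeeze_zero (fun _ => dist_nonneg) (fun n => ?_) ht
  rw [Metric.NonemptyCompacts.dist_eq]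
  refine Metric.hausdorffDist_le_of_mem_dist (t_pos n).le ?_ ?_
  · intro x hx
    refine ⟨base, rfl, ?_⟩
    have hx' : x ∈ X n := hx
    unfold X at hx'
    rcases mem_insert.1 hx' with rfl | h
    · rw [dist_self]; exact (t_pos n).le
    · obtain ⟨i, _, rfl⟩ := mem_image.1 h
      exact le_rfl
  · intro x hx
    have hx' : x = base := hx
    refine ⟨base, (by simp [X] : base ∈ ((X n : Finset W) : Set W)), ?_⟩
    rw [hx', dist_self]; exact (t_pos n).le

end Pool.Agent.H518Z.Mag
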